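import Mathlib

/-!
# MP_33ac70_nt

The divergence statement for integer approximation by sums of `θ`-powers fails, already for `k = 1`
and almost every `θ ∈ (0,1)`.
-/

namespace Pool.Agent.Results.MP_33ac70_nt.DivergenceFails

open MeasureTheory Finset Filter

/-- The solutions `(a_1, …, a_k, b)` in positive integers of
`|∑ a_j^θ - b| ≤ ρ(‖a‖_∞) / ‖a‖_∞^k`. -/
def Sol (k : ℕ) (ρ : ℕ → ℝ) (θ : ℝ) : Set ((Fin k → ℕ) × ℕ) :=
  {s | (∀ j, 1 ≤ s.1 j) ∧ 1 ≤ s.2 ∧
    |∑ j, (s.1 j : ℝ) ^ θ - s.2| ≤ ρ (univ.sup s.1) / ((univ.sup s.1 : ℕ) : ℝ) ^ k}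

/-- start of the `i`-th block -/
def XX (i : ℕ) : ℕ := 4 ^ (2 * i ^ 2)

/-- length of the `i`-th block -/
def LL (i : ℕ) : ℕ := 4 ^ i

open Classical in
/-- the function `ρ(m)/m` -/
noncomputable def psi (m : ℕ) : ℝ :=
  if h : ∃ i, 1 ≤ i ∧ XX i ≤ m ∧ m < XX i + LL i then 1 / (LL (Nat.find h) : ℝ) else 0

lemma LL_pos (i : ℕ) : 0 < LL i := by unfold LL; positivity

lemma XX_mono {i j : ℕ} (hi : 1 ≤ i) (h : i < j) : XX i + LL i ≤ XX j := by
  have h1 : LL i ≤ XX i := by
    unfold LL XX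
    apply Nat.pow_le_pow_right (by norm_num)
    nlinarith
  have h2 : 4 * XX i ≤ XX j := by
    unfold XX
    rw [← pow_succ']
    apply Nat.pow_le_pow_right (by norm_num)
    nlinarith
  omega

lemma psi_block {i m : ℕ} (hi : 1 ≤ i) (h1 : XX i ≤ m) (h2 : m < XX i + LL i) :
    psi m = 1 / (LL i : ℝ) := by
  classical
  have h : ∃ i, 1 ≤ i ∧ XX i ≤ m ∧ m < XX i + LL i := ⟨i, hi, h1, h2⟩
  unfold psi
  rw [dif_pos h]
  have h3 := Nat.find_spec h
  have h4 : Nat.find h = i := by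
    rcases Nat.lt_trichotomy (Nat.find h) i with h5 | h5 | h5
    · have := XX_mono h3.1 h5; omega
    · exact h5
    · have := XX_mono hi h5; omega
  rw [h4]

lemma psi_nonneg (m : ℕ) : 0 ≤ psi m := by
  unfold psi
  split_ifs
  · positivity
  · exact le_rfl

lemma psi_not_summable : ¬ Summable psi := by
  intro h
  rw [summable_iff_vanishing_norm] at h
  obtain ⟨s, hs⟩ := h (1 / 2) (by norm_num)
  obtain ⟨M, hM⟩ := s.bddAbove
  set i := M + 1 with hi
  have h1 : Disjoint (Finset.Ico (XX i) (XX i + LL i)) s := by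
    rw [Finset.disjoint_left]
    intro m hm hms
    rw [Finset.mem_Ico] at hm
    have h2 := hM hms
    have h3 : i < XX i := by
      calc i < 4 ^ i := Nat.lt_pow_self (by norm_num)
        _ ≤ XX i := by
          unfold XX
          apply Nat.pow_le_pow_right (by norm_num)
          nlinarith
    omega
  have h2 := hs _ h1
  have h3 : ∑ m ∈ Finset.Ico (XX i) (XX i + LL i), psi m = 1 := by
    rw [sum_congr rfl (fun m hm => psi_block (i := i) (by omega) (Finset.mem_Ico.1 hm).1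
      (Finset.mem_Ico.1 hm).2), sum_const, Nat.card_Ico, nsmul_eq_mul, Nat.add_sub_cancel_left]
    have : (LL i : ℝ) ≠ 0 := by exact_mod_cast (LL_pos i).ne'
    field_simp
  rw [h3] at h2
  norm_num at h2

/-- the set of `θ ∈ (0,1)` for which `X^θ` is close to a positive integer -/
def near (X : ℕ) (η : ℝ) : Set ℝ := {θ | θ ∈ Set.Ioo (0 : ℝ) 1 ∧ ∃ b : ℕ, 1 ≤ b ∧
  |(X : ℝ) ^ θ - b| ≤ η}

lemma near_measure {X : ℕ} (hX : 3 ≤ X) {η : ℝ} (h0 : 0 < η) (h1 : η ≤ 1 / 2) :
    volume (near X η) ≤ ENNReal.ofReal (8 * η) := by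
  have hX' : (3 : ℝ) ≤ X := by exact_mod_cast hX
  have hlog : 1 ≤ Real.log X := by
    rw [Real.le_log_iff_exp_le (by linarith)]
    have := Real.exp_one_lt_d9
    linarith
  have hsub : near X η ⊆ ⋃ b ∈ Finset.Icc 1 X,
      Set.Icc (Real.log ((b : ℝ) - η) / Real.log X) (Real.log ((b : ℝ) + η) / Real.log X) := by
    rintro θ ⟨⟨ht0, ht1⟩, b, hb, hb2⟩
    rw [abs_le] at hb2
    have hXt : (X : ℝ) ^ θ < X := by
      calc (X : ℝ) ^ θ < (X : ℝ) ^ (1 : ℝ) :=
            Real.rpow_lt_rpow_of_exponent_lt (by linarith) ht1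
        _ = X := Real.rpow_one _
    have hb1' : (1 : ℝ) ≤ b := by exact_mod_cast hb
    have hbX : b ≤ X := by
      have : (b : ℝ) < X + 1 := by linarith [hb2.1]
      have : b < X + 1 := by exact_mod_cast this
      omega
    simp only [Set.mem_iUnion]
    refine ⟨b, Finset.mem_Icc.2 ⟨hb, hbX⟩, ?_⟩
    have hpow : Real.log ((X : ℝ) ^ θ) = θ * Real.log X := Real.log_rpow (by linarith) _
    have hpos : 0 < (X : ℝ) ^ θ := Real.rpow_pos_of_pos (by linarith) _
    constructor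
    · rw [div_le_iff₀ (by linarith), ← hpow]
      exact Real.log_le_log (by linarith) (by linarith [hb2.1])
    · rw [le_div_iff₀ (by linarith), ← hpow]
      exact Real.log_le_log hpos (by linarith [hb2.2])
  refine (measure_mono hsub).trans ((measure_biUnion_finset_le _ _).trans ?_)
  have hterm : ∀ b ∈ Finset.Icc 1 X, volume (Set.Icc (Real.log ((b : ℝ) - η) / Real.log X)
      (Real.log ((b : ℝ) + η) / Real.log X)) ≤ ENNReal.ofReal (4 * η / Real.log X * (1 / b)) := by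
    intro b hb
    rw [Finset.mem_Icc] at hb
    have hb1' : (1 : ℝ) ≤ b := by exact_mod_cast hb.1
    rw [Real.volume_Icc]
    apply ENNReal.ofReal_le_ofReal
    rw [← sub_div, ← Real.log_div (by linarith) (by linarith)]
    have h2 : Real.log (((b : ℝ) + η) / (b - η)) ≤ ((b : ℝ) + η) / (b - η) - 1 :=
      Real.log_le_sub_one_of_pos (div_pos (by linarith) (by linarith))
    have h3 : ((b : ℝ) + η) / (b - η) - 1 ≤ 4 * η * (1 / b) := by
      have hbη : 0 < (b : ℝ) - η := by linarith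
      rw [div_sub_one hbη.ne', div_le_iff₀ hbη]
      have : 4 * η * (1 / b) * ((b : ℝ) - η) = 4 * η - 4 * η * η / b := by
        field_simp
      rw [this]
      have h4 : 4 * η * η / b ≤ 2 * η := by
        rw [div_le_iff₀ (by linarith)]
        nlinarith
      linarith
    calc Real.log (((b : ℝ) + η) / (b - η)) / Real.log X ≤ (4 * η * (1 / b)) / Real.log X := by
          apply div_le_div_of_nonneg_right (h2.trans h3) (by linarith)
      _ = _ := by ring
  refine (sum_le_sum hterm).trans ?_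
  rw [← ENNReal.ofReal_sum_of_nonneg (fun b _ => by positivity), ← mul_sum]
  apply ENNReal.ofReal_le_ofReal
  have h2 : ∑ b ∈ Finset.Icc 1 X, (1 / (b : ℝ)) ≤ 1 + Real.log X := by
    have := harmonic_le_one_add_log X
    rw [harmonic_eq_sum_Icc] at this
    push_cast at this
    simpa [one_div] using this
  calc 4 * η / Real.log X * ∑ b ∈ Finset.Icc 1 X, (1 / (b : ℝ)) ≤
      4 * η / Real.log X * (1 + Real.log X) := by gcongr
    _ ≤ 8 * η := by
      rw [div_mul_eq_mul_div, div_le_iff₀ (by linarith)]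
      nlinarith

lemma pow_move {X a : ℕ} (hX : 1 ≤ X) (ha : X ≤ a) {θ : ℝ} (h0 : 0 < θ) (h1 : θ < 1) :
    (X : ℝ) ^ θ ≤ (a : ℝ) ^ θ ∧ (a : ℝ) ^ θ ≤ (X : ℝ) ^ θ + (a - X) * (X : ℝ) ^ (θ - 1) := by
  have hX0 : (0 : ℝ) < X := by exact_mod_cast hX
  have hXa : (X : ℝ) ≤ a := by exact_mod_cast ha
  refine ⟨Real.rpow_le_rpow hX0.le hXa h0.le, ?_⟩
  -- (a/X)^θ ≤ 1 + θ (a/X - 1)
  have h2 : (1 + ((a : ℝ) / X - 1)) ^ θ ≤ 1 + θ * ((a : ℝ) / X - 1) := by
    refine rpow_one_add_le_one_add_mul_self ?_ h0.le h1.le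
    have : 0 ≤ (a : ℝ) / X := by positivity
    linarith
  rw [add_sub_cancel] at h2
  have h3 : (a : ℝ) ^ θ = (X : ℝ) ^ θ * ((a : ℝ) / X) ^ θ := by
    rw [← Real.mul_rpow hX0.le (by positivity)]
    congr 1; field_simp
  have h4 : (X : ℝ) ^ (θ - 1) = (X : ℝ) ^ θ / X := by
    rw [Real.rpow_sub hX0, Real.rpow_one]
  rw [h3, h4]
  have h5 : 0 < (X : ℝ) ^ θ := Real.rpow_pos_of_pos hX0 _
  have h6 : 0 ≤ (a : ℝ) / X - 1 := by
    rw [sub_nonneg, one_le_div hX0]; exact hXa
  calc (X : ℝ) ^ θ * ((a : ℝ) / X) ^ θ ≤ (X : ℝ) ^ θ * (1 + θ * ((a : ℝ) / X - 1)) := by gcongr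
    _ ≤ (X : ℝ) ^ θ * (1 + 1 * ((a : ℝ) / X - 1)) := by gcongr
    _ = _ := by field_simp

theorem main : ∀ᵐ θ ∂(volume.restrict (Set.Ioo (0 : ℝ) 1)),
    (Sol 1 (fun m => m * psi m) θ).Finite := by
  -- exact powers
  have hcount : ∀ᵐ θ : ℝ, θ ∉ ⋃ (a : ℕ) (b : ℕ), {θ : ℝ | θ = Real.log b / Real.log a} := by
    have h1 : (⋃ (a : ℕ) (b : ℕ), {θ : ℝ | θ = Real.log b / Real.log a}).Countable := by
      apply Set.countable_iUnion; intro a
      apply Set.countable_iUnion; intro b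
      exact Set.countable_singleton _
    exact h1.ae_notMem volume
  -- Borel-Cantelli
  have hBC : ∀ᵐ θ : ℝ, ∀ᶠ i in atTop, θ ∉ near (XX (i + 1)) (2 / (LL (i + 1) : ℝ)) := by
    apply ae_eventually_notMem
    have hX3 : ∀ i : ℕ, 3 ≤ XX (i + 1) := by
      intro i
      unfold XX
      calc 3 ≤ 4 ^ 1 := by norm_num
        _ ≤ 4 ^ (2 * (i + 1) ^ 2) := by
          have : 1 ≤ (i + 1) ^ 2 := Nat.one_le_pow _ _ (by omega)
          exact Nat.pow_le_pow_right (by norm_num) (by omega)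
    have hL : ∀ i : ℕ, (4 : ℝ) ≤ LL (i + 1) := by
      intro i
      unfold LL
      push_cast
      calc (4 : ℝ) = 4 ^ 1 := by norm_num
        _ ≤ 4 ^ (i + 1) := pow_le_pow_right₀ (by norm_num) (by omega)
    have hsum : Summable (fun i : ℕ => 8 * (2 / (LL (i + 1) : ℝ))) := by
      have h1 : Summable (fun i : ℕ => ((1 / 4 : ℝ)) ^ i) :=
        summable_geometric_of_lt_one (by norm_num) (by norm_num)
      have h2 : (fun i : ℕ => 8 * (2 / (LL (i + 1) : ℝ))) = fun i : ℕ => 4 * (1 / 4 : ℝ) ^ i := by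
        funext i
        unfold LL
        push_cast
        rw [one_div_pow, pow_succ]
        field_simp
        norm_num
      rw [h2]
      exact h1.mul_left _
    refine ne_top_of_le_ne_top (hsum.tsum_ofReal_ne_top) (ENNReal.tsum_le_tsum (fun i => ?_))
    apply near_measure (hX3 i)
    · have := hL i; positivity
    · have := hL i
      rw [div_le_iff₀ (by linarith)]; linarith
  rw [ae_restrict_iff' measurableSet_Ioo]
  filter_upwards [hcount, hBC] with θ hc hb hθ
  obtain ⟨h0, h1⟩ := hθ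
  obtain ⟨I0, hI0⟩ := eventually_atTop.1 hb
  -- eventually L_i^2 ≤ X_i^(1-θ)
  obtain ⟨I1, hI1⟩ := exists_nat_gt (1 / (1 - θ))
  set I := max I0 I1 + 1 with hI
  -- all solutions have a < X_I
  have key : ∀ a b : ℕ, 1 ≤ a → 1 ≤ b → |(a : ℝ) ^ θ - b| ≤ psi a → a < XX I + 1 := by
    intro a b ha hb1 hab
    by_contra hlt
    rw [not_lt] at hlt
    have hXI : 4 ≤ XX I := by
      unfold XX
      calc 4 = 4 ^ 1 := by norm_num
        _ ≤ 4 ^ (2 * I ^ 2) := by
          have : 1 ≤ I ^ 2 := Nat.one_le_pow _ _ (by omega)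
          exact Nat.pow_le_pow_right (by norm_num) (by omega)
    by_cases h : ∃ i, 1 ≤ i ∧ XX i ≤ a ∧ a < XX i + LL i
    · obtain ⟨i, hi, hi1, hi2⟩ := h
      rw [psi_block hi hi1 hi2] at hab
      have hiI : I ≤ i := by
        by_contra hh
        rw [not_le] at hh
        have := XX_mono hi hh
        omega
      have hL0 : (0 : ℝ) < LL i := by exact_mod_cast LL_pos i
      have hX1 : 1 ≤ XX i := by unfold XX; exact Nat.one_le_pow _ _ (by norm_num)
      obtain ⟨hm1, hm2⟩ := pow_move hX1 hi1 h0 h1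
      have hmove : ((a : ℝ) - XX i) * (XX i : ℝ) ^ (θ - 1) ≤ 1 / (LL i : ℝ) := by
        have h3 : (a : ℝ) - XX i ≤ LL i := by
          have : (a : ℝ) < XX i + LL i := by exact_mod_cast hi2
          linarith
        have hiI1 : (1 : ℝ) / (1 - θ) ≤ i := by
          have : (I1 : ℝ) ≤ i := by
            have : I1 ≤ i := by omega
            exact_mod_cast this
          linarith
        have h4 : (XX i : ℝ) ^ (θ - 1) ≤ 1 / (LL i : ℝ) ^ 2 := by
          unfold XX LL
          push_cast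
          rw [← pow_mul, ← Real.rpow_natCast, ← Real.rpow_mul (by norm_num), one_div,
            ← Real.rpow_natCast, ← Real.rpow_neg (by norm_num)]
          apply Real.rpow_le_rpow_of_exponent_le (by norm_num)
          push_cast
          rw [div_le_iff₀ (by linarith)] at hiI1
          have hi0 : (0 : ℝ) ≤ i := Nat.cast_nonneg _
          nlinarith
        have h5 : (0 : ℝ) ≤ (XX i : ℝ) ^ (θ - 1) := Real.rpow_nonneg (Nat.cast_nonneg _) _
        calc ((a : ℝ) - XX i) * (XX i : ℝ) ^ (θ - 1) ≤ LL i * (1 / (LL i : ℝ) ^ 2) :=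
              mul_le_mul h3 h4 h5 hL0.le
          _ = 1 / (LL i : ℝ) := by field_simp
      obtain ⟨i', rfl⟩ : ∃ i', i = i' + 1 := ⟨i - 1, by omega⟩
      apply hI0 i' (by omega)
      refine ⟨⟨h0, h1⟩, b, hb1, ?_⟩
      rw [abs_le] at hab ⊢
      have : (2 : ℝ) / LL (i' + 1) = 1 / LL (i' + 1) + 1 / LL (i' + 1) := by ring
      rw [this]
      have hpos : (0 : ℝ) < 1 / LL (i' + 1) := by positivity
      constructor <;> linarith [hab.1, hab.2]
    · have hpsi : psi a = 0 := by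
        unfold psi; rw [dif_neg h]
      rw [hpsi] at hab
      have h3 : (a : ℝ) ^ θ = b := by
        have := abs_nonpos_iff.1 hab
        linarith
      apply hc
      simp only [Set.mem_iUnion]
      refine ⟨a, b, ?_⟩
      have ha2 : (1 : ℝ) < a := by
        have : 1 < a := by omega
        exact_mod_cast this
      have hla : 0 < Real.log a := Real.log_pos ha2
      show θ = Real.log b / Real.log a
      rw [eq_div_iff hla.ne', ← Real.log_rpow (by linarith), h3]
  -- finiteness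
  apply Set.Finite.subset (s := (Set.Iic (fun _ : Fin 1 => XX I + 1)) ×ˢ
    (Set.Iic (XX I + 3)))
  · exact (Set.finite_Iic _).prod (Set.finite_Iic _)
  · rintro ⟨s, b⟩ ⟨hs1, hb1, hs⟩
    have hsup : univ.sup s = s 0 := by simp
    rw [hsup, Fin.sum_univ_one, pow_one] at hs
    have ha := hs1 0
    have ha' : (s 0 : ℝ) ≠ 0 := by
      have : (1 : ℝ) ≤ s 0 := by exact_mod_cast ha
      linarith
    have hs' : |(s 0 : ℝ) ^ θ - b| ≤ psi (s 0) := by
      refine hs.trans (le_of_eq ?_)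
      field_simp
    have h2 := key (s 0) b ha hb1 hs'
    refine ⟨?_, ?_⟩
    · intro j
      rw [Subsingleton.elim j 0]
      exact h2.le
    · have h3 : psi (s 0) ≤ 1 := by
        unfold psi
        split_ifs
        · rw [div_le_one (by exact_mod_cast LL_pos _)]
          exact_mod_cast LL_pos _
        · norm_num
      have h4 : (s 0 : ℝ) ^ θ ≤ s 0 := by
        calc (s 0 : ℝ) ^ θ ≤ (s 0 : ℝ) ^ (1 : ℝ) :=
              Real.rpow_le_rpow_of_exponent_le (by exact_mod_cast ha) h1.le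
          _ = s 0 := Real.rpow_one _
      have h5 : (b : ℝ) ≤ s 0 + 1 := by
        rw [abs_le] at hs'
        linarith [hs'.1]
      have h6 : b ≤ s 0 + 1 := by exact_mod_cast h5
      show b ≤ XX I + 3
      omega

theorem result :
    (∃ ρ : ℕ → ℝ, (∀ m, 0 ≤ ρ m) ∧ ¬ Summable (fun m : ℕ => ρ m / m) ∧
      ∀ᵐ θ ∂(volume.restrict (Set.Ioo (0 : ℝ) 1)), (Sol 1 ρ θ).Finite) ∧
    ¬ (∀ k : ℕ, 1 ≤ k → ∀ ρ : ℕ → ℝ, (∀ m, 0 ≤ ρ m) → ¬ Summable (fun m : ℕ => ρ m / m) →
      ∀ᵐ θ ∂(volume.restrict (Set.Ioi (0 : ℝ))), (Sol k ρ θ).Infinite) := by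
  have hρ : (∀ m : ℕ, 0 ≤ (m : ℝ) * psi m) ∧
      ¬ Summable (fun m : ℕ => (m : ℝ) * psi m / m) := by
    refine ⟨fun m => mul_nonneg (Nat.cast_nonneg _) (psi_nonneg m), ?_⟩
    intro h
    apply psi_not_summable
    rw [← summable_nat_add_iff 1] at h ⊢
    apply h.congr
    intro m
    have : ((m + 1 : ℕ) : ℝ) ≠ 0 := by positivity
    field_simp
  refine ⟨⟨fun m => m * psi m, hρ.1, hρ.2, main⟩, ?_⟩
  intro hall
  have h1 := hall 1 le_rfl (fun m => m * psi m) hρ.1 hρ.2
  have h2 : ∀ᵐ θ ∂(volume.restrict (Set.Ioo (0 : ℝ) 1)),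
      (Sol 1 (fun m => m * psi m) θ).Infinite :=
    ae_restrict_of_ae_restrict_of_subset Set.Ioo_subset_Ioi_self h1
  have h3 : ∀ᵐ θ ∂(volume.restrict (Set.Ioo (0 : ℝ) 1)), False := by
    filter_upwards [h2, main] with θ h4 h5
    exact h4 h5
  rw [Filter.eventually_false_iff_eq_bot, ae_eq_bot, Measure.restrict_eq_zero,
    Real.volume_Ioo] at h3
  norm_num at h3

end Pool.Agent.Results.MP_33ac70_nt.DivergenceFails
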